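import Pool.Agent.Y229.PS.Gen
import Pool.Agent.W425.SH.Final

set_option autoImplicit false
set_option linter.unusedSectionVars false

/-! # Germs which are stably sparse: the strong monodromy conjecture -/

namespace Pool.Agent.K6.H7.LG

open MvPolynomial
open Pool.Agent.W749.JI (fam)
open Pool.Agent.W425.SM (sparse SmoothFan Principal)
open Pool.Agent.W425.SL (topZetaSparseLocal)
open Pool.Agent.W425.SH (Higher Above)
open Pool.Agent.Y229.RE
open Pool.Agent.Y229.PS

/-- **Stably sparse germs.** -/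
theorem strong_sparse {N k r : ℕ} (hr : 1 ≤ r) (v : Fin r → Fin (N + (k + k)) → ℕ)
    (hv : AffineIndependent ℚ (fun j => (fun i => (v j i : ℚ) : Fin (N + (k + k)) → ℚ)))
    (hv0 : ∀ j, v j ≠ 0) (a : Fin r → ℂ) (ha : ∀ j, a j ≠ 0)
    (h : MvPolynomial (Fin (N + (k + k))) ℂ) (h1 : h = 0 ∨ Higher v h) (h2 : Above v h)
    (f : MvPowerSeries (Fin N) ℂ) (hf0 : f ≠ 0) (hf : MvPowerSeries.constantCoeff f = 0)
    (hB : Becomes f k (sparse v a + h)) (b : Polynomial ℂ) (hb : IsFormalBFunction f b)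
    (R : SmoothFan (N + (k + k))) (hR : Principal v R) :
    ∃ P : Polynomial ℂ, algebraMap (Polynomial ℂ) (RatFunc ℂ)
      (b * (Polynomial.X - Polynomial.C (k : ℂ))) * unstab k 1 (topZetaSparseLocal v R) =
        algebraMap (Polynomial ℂ) (RatFunc ℂ) P := by
  obtain ⟨hb1, h3⟩ := becomes_local hf0 hf hb hB
  obtain ⟨c, rfl⟩ := exists_factor hb1
  obtain ⟨P, hP⟩ := Pool.Agent.W425.SH.final' hr v a h hv hv0 ha h1 h2 R hR _ (h3 c rfl)
  exact unstab_poly hP

/-- `∑_{π j = i} a_j x ^ (m_j) + H_i` -/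
noncomputable def tupS {N k r : ℕ} (π : Fin r → Fin (k + 1)) (m : Fin r → Fin (N + k) → ℕ)
    (a : Fin r → ℂ) (H : Fin (k + 1) → MvPolynomial (Fin (N + k)) ℂ) (i : Fin (k + 1)) :
    MvPolynomial (Fin (N + k)) ℂ :=
  fam π m a i + H i

/-- `H_0 + ∑ y_i H_i` -/
noncomputable def hS {N k : ℕ} (H : Fin (k + 1) → MvPolynomial (Fin (N + k)) ℂ) :
    MvPolynomial (Fin (N + (k + k))) ℂ :=
  rename emb (H 0) + ∑ i : Fin k, X (yv N i) * rename emb (H i.succ)

theorem sparse_hS {N k r : ℕ} (π : Fin r → Fin (k + 1)) (m : Fin r → Fin (N + k) → ℕ)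
    (a : Fin r → ℂ) (H : Fin (k + 1) → MvPolynomial (Fin (N + k)) ℂ) :
    sparse (ex π m) a + hS H =
      rename emb (tupS π m a H 0) +
        ∑ i : Fin k, X (yv N i) * rename emb (tupS π m a H i.succ) := by
  rw [sparse_ex]
  unfold hS tupS
  simp only [map_add, mul_add, Finset.sum_add_distrib]
  ring

/-- terms of higher order have no constant term -/
theorem above_zero {r n : ℕ} (v : Fin r → Fin n → ℕ) (h : MvPolynomial (Fin n) ℂ)
    (h2 : Above v h) : constantCoeff h = 0 := by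
  rw [constantCoeff_eq]
  by_contra hne
  obtain ⟨j, hj⟩ := h2 0 (mem_support_iff.2 hne) (fun _ => 1) fun _ => one_pos
  have h3 : 0 ≤ ∑ i, (v j i : ℝ) * (1 : ℝ) :=
    Finset.sum_nonneg fun i _ => mul_nonneg (Nat.cast_nonneg _) zero_le_one
  simp only [Finsupp.coe_zero, Pi.zero_apply, Nat.cast_zero, zero_mul,
    Finset.sum_const_zero] at hj
  linarith

/-- the constant terms of the `H_i`, from the condition for `H_0 + ∑ y_i H_i` -/
theorem hS_zero {N k r : ℕ} (π : Fin r → Fin (k + 1)) (m : Fin r → Fin (N + k) → ℕ)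
    (hm : ∀ j, m j ≠ 0) (H : Fin (k + 1) → MvPolynomial (Fin (N + k)) ℂ)
    (hH : ∀ i, constantCoeff (H i) = 0) (a : Fin r → ℂ) (i : Fin (k + 1)) :
    constantCoeff (tupS π m a H i) = 0 := by
  unfold tupS
  rw [map_add, fam_zero π m hm, hH, add_zero]

/-- **Functions on smooth complete intersections with sparse equations.** -/
theorem ci_sparse {N k r : ℕ} (hr : 1 ≤ r) (π : Fin r → Fin (k + 1))
    (m : Fin r → Fin (N + k) → ℕ) (hm : ∀ j, m j ≠ 0)
    (hv : AffineIndependent ℚ (fun j => (fun i => (ex π m j i : ℚ) : Fin (N + (k + k)) → ℚ)))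
    (a : Fin r → ℂ) (ha : ∀ j, a j ≠ 0) (H : Fin (k + 1) → MvPolynomial (Fin (N + k)) ℂ)
    (hH : ∀ i, constantCoeff (H i) = 0) (h1 : hS H = 0 ∨ Higher (ex π m) (hS H))
    (h2 : Above (ex π m) (hS H))
    (hdet : (Matrix.of fun i j : Fin k => MvPolynomial.coeff (Finsupp.single (Fin.natAdd N j) 1)
      (tupS π m a H i.succ)).det ≠ 0)
    (f : MvPowerSeries (Fin N) ℂ) (q : Fin k → MvPowerSeries (Fin (N + k)) ℂ) (hf0 : f ≠ 0)
    (hq : ∀ i, MvPowerSeries.constantCoeff (q i) = 0)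
    (hF : (tupS π m a H 0 : MvPowerSeries (Fin (N + k)) ℂ) =
      MvPowerSeries.rename (Fin.castAdd k) f +
        ∑ i, q i * (tupS π m a H i.succ : MvPowerSeries (Fin (N + k)) ℂ))
    (b : Polynomial ℂ) (hb : IsFormalBFunction f b) (R : SmoothFan (N + (k + k)))
    (hR : Principal (ex π m) R) :
    ∃ P : Polynomial ℂ, algebraMap (Polynomial ℂ) (RatFunc ℂ)
      (b * (Polynomial.X - Polynomial.C (k : ℂ))) *
        unstab k 1 (topZetaSparseLocal (ex π m) R) = algebraMap (Polynomial ℂ) (RatFunc ℂ) P := by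
  have h0 := hS_zero π m hm H hH a
  have hB := becomes_emb (tupS π m a H) (fun i => h0 i.succ) hdet f q hq hF
  have hf : MvPowerSeries.constantCoeff f = 0 := by
    have h1 := congrArg (MvPowerSeries.constantCoeff (σ := Fin (N + k)) (R := ℂ)) hF
    rw [const_coe, h0, map_add, map_sum, MvPowerSeries.constantCoeff_rename,
      Finset.sum_eq_zero (fun i _ => by rw [map_mul, hq, zero_mul]), add_zero] at h1
    exact h1.symm
  rw [← sparse_hS] at hB
  exact strong_sparse hr (ex π m) hv (ex_ne_zero π m hm) a ha (hS H) h1 h2 f hf0 hf hB b hb R hR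

end Pool.Agent.K6.H7.LG
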